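import Mathlib

/-!
# Partition regularity of `x - 2y = p(z)` for `deg p ≥ 2` (MP_0ef770_co, Q1)

For an integer polynomial `p` with `p(0) = 0` and degree at least two, the equation
`x - 2y = p(z)` is partition regular over the positive integers if and only if it has a
constant solution `x = y = z = c`, that is `p(c) = -c` for some positive integer `c`.
-/

set_option autoImplicit false

namespace Pool.Agent.Results.MP_0ef770_co.HighDegree

open Polynomial Filter

/-- The equation `x - 2y = p(z)` is partition regular over the positive integers: every colouring of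
the naturals with finitely many colours has a solution in positive integers of one colour. -/
def PartitionRegular (p : ℤ[X]) : Prop :=
  ∀ (r : ℕ) (C : ℕ → Fin r), ∃ x y z : ℕ, 0 < x ∧ 0 < y ∧ 0 < z ∧ C x = C y ∧ C y = C z ∧
    (x : ℤ) - 2 * (y : ℤ) = p.eval (z : ℤ)

/-- If two reals differ by at least one and less than `M - 1`, their floors differ mod `M`. -/
lemma floor_ne_mod {a b : ℝ} {M : ℕ} (h1 : 1 ≤ |a - b|) (h2 : |a - b| + 1 < M)
    (h : ((⌊a⌋ : ℤ) : ZMod M) = ((⌊b⌋ : ℤ) : ZMod M)) : False := by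
  rw [ZMod.intCast_eq_intCast_iff_dvd_sub] at h
  have ha1 := Int.floor_le a
  have ha2 := Int.lt_floor_add_one a
  have hb1 := Int.floor_le b
  have hb2 := Int.lt_floor_add_one b
  obtain ⟨k, hk⟩ := h
  have hM : (0:ℝ) < M := by
    have := abs_nonneg (a - b)
    linarith
  have hk' : ((⌊b⌋ : ℤ) : ℝ) - ((⌊a⌋ : ℤ) : ℝ) = (M : ℝ) * (k : ℝ) := by exact_mod_cast hk
  have hk0 : k = 0 := by
    by_contra hne
    have habs : (1:ℝ) ≤ |(k:ℝ)| := by
      have : (1:ℤ) ≤ |k| := Int.one_le_abs hne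
      exact_mod_cast this
    have h3 : |((⌊b⌋ : ℤ) : ℝ) - ((⌊a⌋ : ℤ) : ℝ)| = (M:ℝ) * |(k:ℝ)| := by
      rw [hk', abs_mul, abs_of_pos hM]
    have h4 : |((⌊b⌋ : ℤ) : ℝ) - ((⌊a⌋ : ℤ) : ℝ)| ≤ |a - b| + 1 := by
      rw [abs_le]
      have := abs_le.1 (le_refl |a - b|)
      constructor <;> linarith
    nlinarith
  rw [hk0] at hk'
  simp only [Int.cast_zero, mul_zero] at hk'
  have h5 : |a - b| < 1 := by
    rw [abs_lt]; constructor <;> linarith
  linarith

/-- Two-sided bounds for a polynomial with real coefficients. -/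
lemma poly_bounds (P : ℝ[X]) (hP : P ≠ 0) (hpos : 0 < P.leadingCoeff) :
    ∃ a b : ℝ, 0 < a ∧ 0 < b ∧ ∀ᶠ z : ℕ in atTop,
      a * (z : ℝ) ^ P.natDegree ≤ P.eval (z : ℝ) ∧ P.eval (z : ℝ) ≤ b * (z : ℝ) ^ P.natDegree := by
  have h := P.isEquivalent_atTop_lead
  have h1 := h.isLittleO.def (show (0:ℝ) < 1/2 by norm_num)
  have h2 : ∀ᶠ x : ℝ in atTop, P.leadingCoeff / 2 * x ^ P.natDegree ≤ P.eval x ∧
      P.eval x ≤ 2 * P.leadingCoeff * x ^ P.natDegree := by
    filter_upwards [h1, eventually_gt_atTop 0] with x hx hx0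
    simp only [Pi.sub_apply, Real.norm_eq_abs] at hx
    have hpow : 0 < P.leadingCoeff * x ^ P.natDegree := by positivity
    rw [abs_of_pos hpow, abs_le] at hx
    constructor <;> nlinarith [hx.1, hx.2]
  refine ⟨P.leadingCoeff / 2, 2 * P.leadingCoeff, by positivity, by positivity, ?_⟩
  exact tendsto_natCast_atTop_atTop.eventually h2

/-- The second colouring separates `z` from every `w` of size comparable to `z ^ d`. -/
lemma loglog_separates (d : ℕ) (hd : 2 ≤ d) (a b : ℝ) (ha : 0 < a) (hb : 0 < b) :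
    ∃ M : ℕ, ∀ᶠ z : ℕ in atTop, ∀ w : ℝ, a * (z : ℝ) ^ d ≤ w → w ≤ b * (z : ℝ) ^ d →
      1 ≤ |3 * Real.log (Real.log w) - 3 * Real.log (Real.log z)| ∧
      |3 * Real.log (Real.log w) - 3 * Real.log (Real.log z)| + 1 < M := by
  obtain ⟨M, hM⟩ := exists_nat_gt (3 * Real.log ((d:ℝ) + 1/2) + 1)
  refine ⟨M, ?_⟩
  have hlog : Tendsto (fun z : ℕ => Real.log (z : ℝ)) atTop atTop :=
    Real.tendsto_log_atTop.comp tendsto_natCast_atTop_atTop
  filter_upwards [hlog.eventually_ge_atTop (2 * |Real.log a| + 2 * |Real.log b| + 1),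
    eventually_ge_atTop 1] with z hz hz1 w hw1 hw2
  have hz0 : (0:ℝ) < z := by exact_mod_cast hz1
  have hLpos : 0 < Real.log z := by
    have := abs_nonneg (Real.log a); have := abs_nonneg (Real.log b); linarith
  have hw0 : 0 < w := lt_of_lt_of_le (by positivity) hw1
  have h1 : Real.log a + d * Real.log z ≤ Real.log w := by
    have := Real.log_le_log (by positivity) hw1
    rwa [Real.log_mul (by positivity) (by positivity), Real.log_pow] at this
  have h2 : Real.log w ≤ Real.log b + d * Real.log z := by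
    have := Real.log_le_log hw0 hw2
    rwa [Real.log_mul (by positivity) (by positivity), Real.log_pow] at this
  have ha' := abs_le.1 (le_refl |Real.log a|)
  have hb' := abs_le.1 (le_refl |Real.log b|)
  have ha0 := abs_nonneg (Real.log a)
  have hb0 := abs_nonneg (Real.log b)
  have hd' : (2:ℝ) ≤ d := by exact_mod_cast hd
  have h3 : ((d:ℝ) - 1/2) * Real.log z ≤ Real.log w := by nlinarith
  have h4 : Real.log w ≤ ((d:ℝ) + 1/2) * Real.log z := by nlinarith
  have h5 : Real.log ((d:ℝ) - 1/2) + Real.log (Real.log z) ≤ Real.log (Real.log w) := by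
    rw [← Real.log_mul (by linarith) hLpos.ne']
    exact Real.log_le_log (by nlinarith) h3
  have hlw : 0 < Real.log w := lt_of_lt_of_le (by nlinarith) h3
  have h6 : Real.log (Real.log w) ≤ Real.log ((d:ℝ) + 1/2) + Real.log (Real.log z) := by
    rw [← Real.log_mul (by linarith) hLpos.ne']
    exact Real.log_le_log hlw h4
  have h7 : (1:ℝ)/3 ≤ Real.log ((d:ℝ) - 1/2) := by
    have h8 : Real.log (3/2) ≤ Real.log ((d:ℝ) - 1/2) := Real.log_le_log (by norm_num) (by linarith)
    have h9 : (1:ℝ)/3 ≤ Real.log (3/2) := by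
      have := Real.one_sub_inv_le_log_of_pos (show (0:ℝ) < 3/2 by norm_num)
      norm_num at this ⊢
      exact this
    linarith
  have h10 : 3 * Real.log (Real.log w) - 3 * Real.log (Real.log z) ≥ 1 := by linarith
  rw [abs_of_pos (by linarith)]
  constructor
  · exact h10
  · linarith

/-- The first colouring separates `u` from `v` when `u / v` is slightly above two or between
`8/5` and `2`. -/
lemma log_separates (u v : ℝ) (hv : 0 < v) (h1 : 8/5 * v ≤ u) (h2 : u ≤ 9/4 * v) :
    1 ≤ |3 * Real.log u - 3 * Real.log v| ∧ |3 * Real.log u - 3 * Real.log v| + 1 < (4:ℕ) := by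
  have hu : 0 < u := lt_of_lt_of_le (by positivity) h1
  have h3 : Real.log (8/5) + Real.log v ≤ Real.log u := by
    rw [← Real.log_mul (by norm_num) hv.ne']
    exact Real.log_le_log (by positivity) h1
  have h4 : Real.log u ≤ Real.log (9/4) + Real.log v := by
    rw [← Real.log_mul (by norm_num) hv.ne']
    exact Real.log_le_log hu h2
  have h5 : (3:ℝ)/8 ≤ Real.log (8/5) := by
    have := Real.one_sub_inv_le_log_of_pos (show (0:ℝ) < 8/5 by norm_num)
    norm_num at this ⊢
    exact this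
  have h6 : Real.log (9/4) < 1 := by
    have h7 : (9/4 : ℝ) < Real.exp 1 := by
      have := Real.exp_one_gt_d9; linarith
    have := Real.log_lt_log (by norm_num) h7
    rwa [Real.log_exp] at this
  rw [abs_of_pos (by linarith)]
  constructor
  · linarith
  · push_cast; linarith

/-- The case distinction for a positive leading coefficient. -/
lemma separate_pos (x y q : ℝ) (hy : 0 < y) (hq : 0 < q) (h : x = 2 * y + q) :
    (8/5 * y ≤ x ∧ x ≤ 9/4 * y) ∨ (q ≤ x ∧ x ≤ 9 * q) := by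
  by_cases hc : q ≤ y / 4
  · left; constructor <;> linarith
  · right; push Not at hc; constructor <;> linarith

/-- The case distinction for a negative leading coefficient. -/
lemma separate_neg (x y q : ℝ) (hx : 0 < x) (hq : 0 < q) (h : 2 * y = x + q) :
    (8/5 * y ≤ x ∧ x ≤ 9/4 * y) ∨ (1/2 * q ≤ y ∧ y ≤ 5/2 * q) := by
  by_cases hc : q ≤ x / 4
  · left; constructor <;> linarith
  · right; push Not at hc; constructor <;> linarith

/-- A colouring without monochromatic solutions when there is no constant solution. -/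
lemma not_partitionRegular (p : ℤ[X]) (hdeg : 2 ≤ p.natDegree)
    (hno : ¬ ∃ c : ℕ, 0 < c ∧ p.eval (c : ℤ) = -(c : ℤ)) : ¬ PartitionRegular p := by
  have hp0 : p ≠ 0 := by rintro rfl; simp at hdeg
  set P : ℝ[X] := p.map (Int.castRingHom ℝ) with hPdef
  have hinj : Function.Injective (Int.castRingHom ℝ) := Int.cast_injective
  have hPdeg : P.natDegree = p.natDegree := Polynomial.natDegree_map_eq_of_injective hinj p
  have hP0 : P ≠ 0 := (Polynomial.map_ne_zero_iff hinj).2 hp0
  have hPeval : ∀ z : ℕ, P.eval (z : ℝ) = ((p.eval (z : ℤ) : ℤ) : ℝ) := by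
    intro z
    rw [hPdef]
    have := Polynomial.eval_intCast_map (Int.castRingHom ℝ) p (z : ℤ)
    simpa using this
  -- a common statement for both signs
  obtain ⟨M, hM⟩ : ∃ M : ℕ, ∀ᶠ z : ℕ in atTop, ∀ x y : ℕ, 0 < x → 0 < y →
      (x : ℤ) - 2 * (y : ℤ) = p.eval (z : ℤ) →
      (8/5 * (y:ℝ) ≤ x ∧ (x:ℝ) ≤ 9/4 * y) ∨
      (∃ w : ℕ, (w = x ∨ w = y) ∧
        1 ≤ |3 * Real.log (Real.log w) - 3 * Real.log (Real.log z)| ∧
        |3 * Real.log (Real.log w) - 3 * Real.log (Real.log z)| + 1 < M) := by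
    rcases lt_or_gt_of_ne (Polynomial.leadingCoeff_ne_zero.2 hP0) with hneg | hpos
    · -- negative leading coefficient
      have hneg' : 0 < (-P).leadingCoeff := by rw [Polynomial.leadingCoeff_neg]; linarith
      obtain ⟨a, b, ha, hb, hab⟩ := poly_bounds (-P) (neg_ne_zero.2 hP0) hneg'
      rw [Polynomial.natDegree_neg, hPdeg] at hab
      obtain ⟨M, hM⟩ := loglog_separates p.natDegree hdeg (1/2 * a) (5/2 * b) (by positivity) (by positivity)
      refine ⟨M, ?_⟩
      filter_upwards [hab, hM, eventually_ge_atTop 1] with z hz1 hz2 hz3 x y hx hy hxy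
      have hz0 : (0:ℝ) < z := by exact_mod_cast hz3
      have hx0 : (0:ℝ) < x := by exact_mod_cast hx
      have hxy' : (x:ℝ) - 2 * (y:ℝ) = P.eval (z:ℝ) := by
        rw [hPeval, ← hxy]; push_cast; ring
      rw [Polynomial.eval_neg] at hz1
      have hq : 0 < -P.eval (z:ℝ) := lt_of_lt_of_le (by positivity) hz1.1
      rcases separate_neg (x:ℝ) (y:ℝ) (-P.eval (z:ℝ)) hx0 hq (by linarith) with h | h
      · exact Or.inl h
      · refine Or.inr ⟨y, Or.inr rfl, hz2 (y:ℝ) ?_ ?_⟩
        · calc 1/2 * a * (z:ℝ) ^ p.natDegree = 1/2 * (a * (z:ℝ) ^ p.natDegree) := by ring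
            _ ≤ 1/2 * (-P.eval (z:ℝ)) := by linarith [hz1.1]
            _ ≤ y := h.1
        · calc (y:ℝ) ≤ 5/2 * (-P.eval (z:ℝ)) := h.2
            _ ≤ 5/2 * (b * (z:ℝ) ^ p.natDegree) := by linarith [hz1.2]
            _ = 5/2 * b * (z:ℝ) ^ p.natDegree := by ring
    · obtain ⟨a, b, ha, hb, hab⟩ := poly_bounds P hP0 hpos
      rw [hPdeg] at hab
      obtain ⟨M, hM⟩ := loglog_separates p.natDegree hdeg a (9 * b) ha (by positivity)
      refine ⟨M, ?_⟩
      filter_upwards [hab, hM, eventually_ge_atTop 1] with z hz1 hz2 hz3 x y hx hy hxy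
      have hz0 : (0:ℝ) < z := by exact_mod_cast hz3
      have hy0 : (0:ℝ) < y := by exact_mod_cast hy
      have hxy' : (x:ℝ) - 2 * (y:ℝ) = P.eval (z:ℝ) := by
        rw [hPeval, ← hxy]; push_cast; ring
      have hq : 0 < P.eval (z:ℝ) := lt_of_lt_of_le (by positivity) hz1.1
      rcases separate_pos (x:ℝ) (y:ℝ) (P.eval (z:ℝ)) hy0 hq (by linarith) with h | h
      · exact Or.inl h
      · refine Or.inr ⟨x, Or.inl rfl, hz2 (x:ℝ) ?_ ?_⟩
        · exact hz1.1.trans h.1
        · calc (x:ℝ) ≤ 9 * P.eval (z:ℝ) := h.2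
            _ ≤ 9 * (b * (z:ℝ) ^ p.natDegree) := by linarith [hz1.2]
            _ = 9 * b * (z:ℝ) ^ p.natDegree := by ring
  obtain ⟨Z, hZ⟩ := eventually_atTop.1 hM
  intro hPR
  -- the colouring
  have hM' : 0 < M + 1 := Nat.succ_pos M
  let κ := Fin (Z + 1) × ZMod 4 × ZMod (M + 1)
  have : Finite κ := inferInstance
  obtain ⟨r, ⟨e⟩⟩ := Finite.exists_equiv_fin κ
  let C : ℕ → κ := fun n => (⟨min n Z, by omega⟩, ((⌊3 * Real.log (n:ℝ)⌋ : ℤ) : ZMod 4),
    ((⌊3 * Real.log (Real.log (n:ℝ))⌋ : ℤ) : ZMod (M + 1)))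
  obtain ⟨x, y, z, hx, hy, hz, hxy, hyz, heq⟩ := hPR r (fun n => e (C n))
  have hxy' : C x = C y := e.injective hxy
  have hyz' : C y = C z := e.injective hyz
  have h1 : min x Z = min y Z := by
    have := congrArg (fun t : κ => (t.1 : ℕ)) hxy'
    simpa [C] using this
  have h1' : min y Z = min z Z := by
    have := congrArg (fun t : κ => (t.1 : ℕ)) hyz'
    simpa [C] using this
  have h2 : ((⌊3 * Real.log (x:ℝ)⌋ : ℤ) : ZMod 4) = ((⌊3 * Real.log (y:ℝ)⌋ : ℤ) : ZMod 4) :=
    congrArg (fun t : κ => t.2.1) hxy'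
  have h3 : ((⌊3 * Real.log (Real.log (x:ℝ))⌋ : ℤ) : ZMod (M + 1)) =
      ((⌊3 * Real.log (Real.log (y:ℝ))⌋ : ℤ) : ZMod (M + 1)) :=
    congrArg (fun t : κ => t.2.2) hxy'
  have h3' : ((⌊3 * Real.log (Real.log (y:ℝ))⌋ : ℤ) : ZMod (M + 1)) =
      ((⌊3 * Real.log (Real.log (z:ℝ))⌋ : ℤ) : ZMod (M + 1)) :=
    congrArg (fun t : κ => t.2.2) hyz'
  by_cases hzZ : z < Z
  · have hy1 : y = z := by omega
    have hx1 : x = z := by omega
    subst hy1
    subst hx1
    exact hno ⟨x, hx, by rw [← heq]; ring⟩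
  · push Not at hzZ
    rcases hZ z hzZ x y hx hy heq with h | ⟨w, hw, hw1, hw2⟩
    · have hy0 : (0:ℝ) < y := by exact_mod_cast hy
      obtain ⟨h4, h5⟩ := log_separates (x:ℝ) (y:ℝ) hy0 h.1 h.2
      exact floor_ne_mod h4 h5 h2
    · have h6 : ((⌊3 * Real.log (Real.log (w:ℝ))⌋ : ℤ) : ZMod (M + 1)) =
          ((⌊3 * Real.log (Real.log (z:ℝ))⌋ : ℤ) : ZMod (M + 1)) := by
        rcases hw with rfl | rfl
        · exact h3.trans h3'
        · exact h3'
      refine floor_ne_mod hw1 ?_ h6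
      push_cast
      linarith

/-- **Main result.** For `p ∈ ℤ[t]` with `p(0) = 0` and degree at least two, the equation
`x - 2y = p(z)` is partition regular if and only if `p(c) = -c` for some positive integer `c`. -/
theorem result (p : ℤ[X]) (_h0 : p.eval 0 = 0) (hdeg : 2 ≤ p.natDegree) :
    PartitionRegular p ↔ ∃ c : ℕ, 0 < c ∧ p.eval (c : ℤ) = -(c : ℤ) := by
  constructor
  · intro h
    by_contra hno
    exact not_partitionRegular p hdeg hno h
  · rintro ⟨c, hc, hpc⟩ r C
    exact ⟨c, c, c, hc, hc, hc, rfl, rfl, by rw [hpc]; ring⟩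

end Pool.Agent.Results.MP_0ef770_co.HighDegree
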